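import Pool.Agent.J4H5.RZ.Stm

set_option autoImplicit false

/-!
# Project RZ, piece (RE): `EE a (iv)` is real and equal to a Dirichlet series (helper87)
-/

namespace Pool.Agent.J4H87.RZ

open Complex MeasureTheory Filter Topology Set
open Pool.Agent.J4H4.NG Pool.Agent.J4H5.RZ

lemma gam_ne (v : ℝ) : gam (2 + I * v) ≠ 0 := by
  have hre : (2 + I * (v : ℂ)).re = 2 := by simp
  have h1 : (2 + I * (v : ℂ)) ≠ 0 := by
    intro h
    have := congrArg Complex.re h
    rw [hre] at this
    simp at this
  have h2 : (2 + I * (v : ℂ)) - 1 ≠ 0 := by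
    intro h
    have := congrArg Complex.re h
    rw [Complex.sub_re, hre] at this
    norm_num at this
  unfold gam
  exact mul_ne_zero (div_ne_zero (mul_ne_zero h1 h2) two_ne_zero)
    (Complex.Gammaℝ_ne_zero_of_re_pos (by rw [hre]; norm_num))

lemma gam_cont : Continuous fun v : ℝ => gam (2 + I * v) := by
  unfold gam Complex.Gammaℝ
  have h1 : Continuous fun v : ℝ => (Real.pi : ℂ) ^ (-(2 + I * (v : ℂ)) / 2) := by
    apply Continuous.const_cpow
    · fun_prop
    · left
      exact_mod_cast Real.pi_ne_zero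
  have h2 : Continuous fun v : ℝ => Complex.Gamma ((2 + I * (v : ℂ)) / 2) := by
    rw [continuous_iff_continuousAt]
    intro v
    have h3 : DifferentiableAt ℂ Complex.Gamma ((2 + I * (v : ℂ)) / 2) := by
      apply Complex.differentiableAt_Gamma
      intro m h
      have := congrArg Complex.re h
      simp at this
      have hm : (0 : ℝ) ≤ (m : ℝ) := by positivity
      linarith
    exact ContinuousAt.comp (f := fun v : ℝ => (2 + I * (v : ℂ)) / 2) h3.continuousAt (by fun_prop)
  fun_prop

theorem t_RE : S_RE' := by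
  intro hREP hREPR a ha
  obtain ⟨_, hdiff, heven, hconj⟩ := hREP (4 * a) (by linarith)
  have h4 : 4 * a / 4 = a := by ring
  rw [h4] at hdiff heven hconj
  obtain ⟨C, V₀, hC, hV₀, hR⟩ := hREPR a ha
  -- reality
  have hreal : ∀ v : ℝ, (EE a (I * v)).im = 0 := by
    intro v
    have h1 := hconj (I * v)
    have h2 : (starRingEnd ℂ) (I * (v : ℂ)) = -(I * v) := by
      rw [map_mul, Complex.conj_I, Complex.conj_ofReal]
      ring
    rw [h2, heven] at h1
    have h3 := congrArg Complex.im h1
    rw [Complex.conj_im] at h3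
    linarith
  have hval : ∀ v : ℝ, (((EE a (I * v)).re : ℝ) : ℂ) = EE a (I * v) := by
    intro v
    apply Complex.ext
    · simp
    · rw [hreal v]
      simp
  have hcont : Continuous (RR a) := by
    unfold RR
    apply Continuous.div
    · have h5 : Continuous (EE a) := hdiff.continuous
      have h6 : Continuous fun v : ℝ => I * (v : ℂ) := by fun_prop
      exact Complex.continuous_re.comp (h5.comp h6)
    · exact gam_cont.norm
    · intro v
      exact norm_ne_zero_iff.2 (gam_ne v)
  refine ⟨C * Real.exp (9 / (16 * a)), V₀, by positivity, hV₀, hcont.continuousOn, ?_, ?_⟩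
  · intro v _ h
    have hg := norm_ne_zero_iff.2 (gam_ne v)
    unfold RR at h
    rw [div_eq_zero_iff] at h
    rcases h with h | h
    · rw [← hval v, h]
      simp
    · exact absurd h hg
  · intro v hv
    have h1 := hR v hv (-(3 / 2))
    have hg : 0 < ‖gam (2 + I * v)‖ := norm_pos_iff.2 (gam_ne v)
    have e1 : (((3 / 2 + -(3 / 2) : ℝ) : ℂ) + I * v) = I * v := by
      push_cast
      ring
    have e2 : (-(3 / 2) : ℝ) ^ 2 / (4 * a) = 9 / (16 * a) := by
      field_simp
      norm_num
    have e3 : Real.log (v / (2 * Real.pi)) / 2 - -(3 / 2) / (2 * a) = lamv a v := by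
      unfold lamv LL
      field_simp
      ring
    rw [e1, e2, e3] at h1
    have hgc : ((‖gam (2 + I * v)‖ : ℝ) : ℂ) ≠ 0 := by exact_mod_cast hg.ne'
    have e4 : ((RR a v : ℝ) : ℂ) - (gam (2 + I * v) / ((‖gam (2 + I * v)‖ : ℝ) : ℂ)) * ((Real.exp (9 / (16 * a)) : ℝ) : ℂ) *
        DD a (lamv a v) v = (EE a (I * v) - gam (2 + I * v) * ((Real.exp (9 / (16 * a)) : ℝ) : ℂ) * DD a (lamv a v) v) /
          ((‖gam (2 + I * v)‖ : ℝ) : ℂ) := by
      unfold RR
      rw [Complex.ofReal_div, hval v]
      field_simp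
    rw [e4, norm_div, Complex.norm_real, Real.norm_eq_abs, abs_of_pos hg, div_le_iff₀ hg]
    calc _ ≤ C / v * Real.exp (9 / (16 * a)) * ‖gam (2 + I * v)‖ := h1
      _ = C * Real.exp (9 / (16 * a)) / v * ‖gam (2 + I * v)‖ := by ring

end Pool.Agent.J4H87.RZ
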