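import Pool.Agent.J4H5.RZ.Stm

set_option autoImplicit false

/-!
# Project RZ, piece (FIN): the assembly (helper87)
-/

namespace Pool.Agent.J4H87.RZ

open Complex MeasureTheory Filter Topology Set
open Pool.Agent.J4H4.NG Pool.Agent.J4H5.RZ

theorem t_FIN : S_FIN := by
  intro hREP hRE hR1 hR2 hR3 hABS b ε hb hε
  have ha : (0 : ℝ) < b / 4 := by positivity
  obtain ⟨hH, _, _, _⟩ := hREP b hb
  obtain ⟨C₁, V₀, hC₁, hV₀, hcont, hzero, _⟩ := hRE (b / 4) ha
  obtain ⟨c, T₁, hc, hT₁, h1⟩ := hR1 (b / 4) ha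
  set ε' : ℝ := min (ε / 8) (1 / 100) with hε'
  have hε'0 : 0 < ε' := lt_min (by positivity) (by norm_num)
  have hε'1 : ε' ≤ 1 / 100 := min_le_right _ _
  have hε'2 : ε' ≤ ε / 8 := min_le_left _ _
  obtain ⟨T₂, hT₂, h2⟩ := hR2 (b / 4) ε' ha hε'0
  obtain ⟨C, T₃, hC, hT₃, h3⟩ := hR3 (b / 4) ha
  obtain ⟨T₄, hT₄, h4⟩ := hABS ε' c C hε'0 hε'1 hc hC
  have hlim : ∀ᶠ R : ℝ in atTop, (6 : ℝ) ≤ R ^ (ε / 2) :=
    (tendsto_rpow_atTop (show 0 < ε / 2 by positivity)).eventually (eventually_ge_atTop 6)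
  obtain ⟨R₁, hR₁⟩ := eventually_atTop.1 hlim
  refine ⟨max (max R₁ 1) (6 * max (max T₁ T₂) (max (max T₃ T₄) V₀)), le_trans (le_max_right _ _) (le_max_left _ _), ?_⟩
  intro R hR
  have g1 : R₁ ≤ R := le_trans (le_trans (le_max_left _ _) (le_max_left _ _)) hR
  have g2 : (1 : ℝ) ≤ R := le_trans (le_trans (le_max_right _ _) (le_max_left _ _)) hR
  have g3 : 6 * max (max T₁ T₂) (max (max T₃ T₄) V₀) ≤ R := le_trans (le_max_right _ _) hR
  set T : ℝ := R / 6 with hT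
  have g4 : max (max T₁ T₂) (max (max T₃ T₄) V₀) ≤ T := by
    rw [hT]
    linarith
  have k1 : T₁ ≤ T := le_trans (le_trans (le_max_left _ _) (le_max_left _ _)) g4
  have k2 : T₂ ≤ T := le_trans (le_trans (le_max_right _ _) (le_max_left _ _)) g4
  have k3 : T₃ ≤ T := le_trans (le_trans (le_trans (le_max_left _ _) (le_max_left _ _)) (le_max_right _ _)) g4
  have k4 : T₄ ≤ T := le_trans (le_trans (le_trans (le_max_right _ _) (le_max_left _ _)) (le_max_right _ _)) g4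
  have k5 : V₀ ≤ T := le_trans (le_trans (le_max_right _ _) (le_max_right _ _)) g4
  have hT1 : (1 : ℝ) ≤ T := hV₀.trans k5
  have hT0 : (0 : ℝ) < T := by linarith
  have hh1 : (1 : ℝ) ≤ T ^ (2 * ε') := Real.one_le_rpow hT1 (by positivity)
  have hh2 : T ^ (2 * ε') ≤ T ^ (1 / 50 : ℝ) := Real.rpow_le_rpow_of_exponent_le hT1 (by linarith)
  obtain ⟨S, hS, hcard⟩ := h4 T (RR (b / 4)) k4 (hcont.mono fun x hx => le_trans k5 hx.1) (h1 T k1) (h2 T k2)
    (h3 T (T ^ (2 * ε')) k3 hh1 hh2)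
  classical
  refine ⟨S.image fun v => 2 * v, ?_, ?_⟩
  · intro x hx
    obtain ⟨v, hv, rfl⟩ := Finset.mem_image.1 hx
    obtain ⟨a1, a2, a3⟩ := hS v hv
    have a4 := hzero v (k5.trans a1) a3
    refine ⟨by linarith, by rw [hT] at a2; linarith, ?_⟩
    rw [hH]
    have : I * (((2 * v : ℝ) : ℝ) : ℂ) / 2 = I * v := by
      push_cast
      ring
    rw [this, a4, mul_zero]
  · rw [Finset.card_image_of_injective _ (fun x y h => by simpa using h)]
    refine le_trans ?_ hcard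
    have hR0 : (0 : ℝ) < R := by linarith
    have q1 : R ^ (1 - ε) * 6 ≤ R ^ (1 - 4 * ε') := by
      calc R ^ (1 - ε) * 6 ≤ R ^ (1 - ε) * R ^ (ε / 2) := by
            apply mul_le_mul_of_nonneg_left (hR₁ R g1) (by positivity)
        _ = R ^ (1 - ε / 2) := by
            rw [← Real.rpow_add hR0]
            congr 1
            ring
        _ ≤ R ^ (1 - 4 * ε') := Real.rpow_le_rpow_of_exponent_le g2 (by linarith)
    have q2 : R ^ (1 - 4 * ε') / 6 ≤ T ^ (1 - 4 * ε') := by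
      rw [hT, Real.div_rpow hR0.le (by norm_num)]
      apply div_le_div_of_nonneg_left (by positivity) (by positivity)
      calc (6 : ℝ) ^ (1 - 4 * ε') ≤ 6 ^ (1 : ℝ) := Real.rpow_le_rpow_of_exponent_le (by norm_num) (by linarith)
        _ = 6 := Real.rpow_one _
    linarith

end Pool.Agent.J4H87.RZ
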